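import Pool.Agent.Q250.Braid.LambdaMain
import Pool.Agent.Q250.Braid.Cube

set_option autoImplicit false

namespace Pool.Agent.Results.MP_de0ecf_co.DiameterDimension

open Pool.Agent.Q250.Braid

variable {B : Type*}

/-- Type `Λ`: simply laced and triangle-free. -/
def IsTypeLambda (M : CoxeterMatrix B) : Prop :=
  (∀ s t : B, s ≠ t → M s t = 2 ∨ M s t = 3) ∧
    ¬ ∃ s t u : B, M s t = 3 ∧ M t u = 3 ∧ M s u = 3

/-- A braid move replaces a factor `s t s` by `t s t`, where `m(s,t) = 3`. -/
def BraidMove (M : CoxeterMatrix B) (β γ : List B) : Prop :=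
  ∃ (u v : List B) (s t : B), M s t = 3 ∧ β = u ++ [s, t, s] ++ v ∧ γ = u ++ [t, s, t] ++ v

/-- The braid class of a word. -/
def BraidClass (M : CoxeterMatrix B) (α : List B) : Type _ :=
  {β : List B // Relation.ReflTransGen (BraidMove M) α β}

/-- The braid graph of a word. -/
def braidGraph (M : CoxeterMatrix B) (α : List B) : SimpleGraph (BraidClass M α) where
  Adj β γ := BraidMove M β.1 γ.1
  symm := ⟨fun _ _ h => Br.symm (fun _ _ h => E3.symm h) h⟩
  loopless := ⟨fun _ h => Br.ne E3_irrefl h rfl⟩

/-- `β` has a braid shadow at the positions `i, i+1, i+2` (counted from `0`). -/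
def HasShadow (M : CoxeterMatrix B) (β : List B) (i : ℕ) : Prop :=
  ∃ (u v : List B) (s t : B), M s t = 3 ∧ β = u ++ [s, t, s] ++ v ∧ u.length = i

/-- The dimension of `α`: the number of position triples (recorded by their first position) that
are braid shadows of some word of the braid class of `α`. -/
noncomputable def dimension (M : CoxeterMatrix B) (α : List B) : ℕ :=
  {i : ℕ | ∃ β : BraidClass M α, HasShadow M β.1 i}.ncard

/-- **Main result.** In type `Λ` the diameter of the braid graph of a reduced expression equals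
the dimension of the expression. -/
theorem result {B W : Type*} [Group W] (M : CoxeterMatrix B) (cs : CoxeterSystem M W)
    (hM : IsTypeLambda M) (α : List B) (hα : cs.IsReduced α) :
    (braidGraph M α).Connected ∧ (braidGraph M α).diam = dimension M α := by
  have hT : TriFree M := fun s t u h1 h2 h3 => hM.2 ⟨s, t, u, h1, h2, h3⟩
  have key : (braidGraph M α).Connected ∧
      ∃ (n : ℕ) (ψ : BraidClass M α → Fin n → Bool) (P Q : BraidClass M α),
        (∀ β γ, hammingDist (ψ β) (ψ γ) = (braidGraph M α).dist β γ) ∧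
        (braidGraph M α).dist P Q = n ∧
        {i | ∃ β : BraidClass M α, ShadowAt (E3 M) β.1 i}.ncard = n :=
    lambda_main hT hα (braidGraph M α) (fun _ _ => Iff.rfl)
  obtain ⟨hc, n, ψ, P, Q, h1, h2, h3⟩ := key
  refine ⟨hc, ?_⟩
  have e1 : (braidGraph M α).diam = n := by
    refine diam_eq_of hc (fun u v => ?_) ⟨P, Q, h2⟩
    rw [← h1]
    refine (hammingDist_le_card_fintype).trans ?_
    simp
  rw [e1]
  exact h3.symm

end Pool.Agent.Results.MP_de0ecf_co.DiameterDimension
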